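import Mathlib

namespace Pool.Agent.Results.MP_828339_co.Yes

open MeasureTheory unitInterval Filter

/-- Graphons on the unit interval. -/
structure Graphon where
  w : I → I → ℝ
  meas : Measurable (fun p : I × I => w p.1 p.2)
  symm : ∀ x y, w x y = w y x
  nonneg : ∀ x y, 0 ≤ w x y
  le_one : ∀ x y, w x y ≤ 1

open Classical in
/-- The homomorphism density `t(G,W)`. -/
noncomputable def t {V : Type} [Fintype V] (G : SimpleGraph V) (W : Graphon) : ℝ :=
  ∫ x : V → I, ∏ e ∈ G.edgeFinset,
    Sym2.lift ⟨fun a b => W.w (x a) (x b), fun _ _ => W.symm _ _⟩ e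

/-- `log t(H,W) / log t(G,W)`. -/
noncomputable def ratio {V U : Type} [Fintype V] [Fintype U] (G : SimpleGraph V)
    (H : SimpleGraph U) (W : Graphon) : ℝ := Real.log (t H W) / Real.log (t G W)

/-- The ratios over the graphons with `t(G,W) ≠ 0, 1`. -/
def ratios {V U : Type} [Fintype V] [Fintype U] (G : SimpleGraph V) (H : SimpleGraph U) : Set ℝ :=
  {r | ∃ W, t G W ≠ 0 ∧ t G W ≠ 1 ∧ r = ratio G H W}

/-- The density domination exponent. -/
noncomputable def rho {V U : Type} [Fintype V] [Fintype U] (G : SimpleGraph V)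
    (H : SimpleGraph U) : ℝ := sSup (ratios G H)

/-- `ρ(G,H)` is finite: all the ratios are finite and they are bounded above. -/
def RhoFinite {V U : Type} [Fintype V] [Fintype U] (G : SimpleGraph V) (H : SimpleGraph U) : Prop :=
  (∀ W, t G W ≠ 0 → t H W ≠ 0) ∧ (ratios G H).Nonempty ∧ BddAbove (ratios G H)

noncomputable def d (W : Graphon) (x : I) : ℝ := ∫ y, W.w x y

noncomputable def m (W : Graphon) (k : ℕ) : ℝ := ∫ x, d W x ^ k

theorem int_of_bdd {X : Type} [MeasureSpace X] [IsFiniteMeasure (volume : Measure X)]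
    {f : X → ℝ} (hf : Measurable f) (C : ℝ) (h0 : ∀ x, 0 ≤ f x) (h1 : ∀ x, f x ≤ C) :
    Integrable f :=
  Integrable.of_bound hf.aestronglyMeasurable C
    (Eventually.of_forall fun x => by rw [Real.norm_eq_abs, abs_of_nonneg (h0 x)]; exact h1 x)

theorem w_meas (W : Graphon) (x : I) : Measurable (W.w x) :=
  W.meas.comp (measurable_const.prodMk measurable_id)

theorem w_int (W : Graphon) (x : I) : Integrable (W.w x) :=
  int_of_bdd (w_meas W x) 1 (W.nonneg x) (W.le_one x)

theorem d_meas (W : Graphon) : Measurable (d W) :=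
  (StronglyMeasurable.integral_prod_right (f := W.w) W.meas.stronglyMeasurable).measurable

theorem d_nonneg (W : Graphon) (x : I) : 0 ≤ d W x := integral_nonneg (W.nonneg x)

theorem d_le (W : Graphon) (x : I) : d W x ≤ 1 := by
  have := integral_mono (w_int W x) (integrable_const (1 : ℝ)) (W.le_one x)
  simpa [d] using this

theorem dk_int (W : Graphon) (k : ℕ) : Integrable (fun x => d W x ^ k) :=
  int_of_bdd ((d_meas W).pow_const k) 1 (fun x => pow_nonneg (d_nonneg W x) k)
    (fun x => pow_le_one₀ (d_nonneg W x) (d_le W x))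

theorem star (W : Graphon) (k : ℕ) :
    ∫ x : Fin (k + 1) → I, ∏ i : Fin k, W.w (x 0) (x i.succ) = m W k := by
  have h := (volume_preserving_piFinSuccAbove (fun _ : Fin (k + 1) => I) 0).integral_comp'
    (fun p : I × (Fin k → I) => ∏ i : Fin k, W.w p.1 (p.2 i))
  refine Eq.trans ?_ (h.trans ?_)
  · rfl
  · rw [Measure.volume_eq_prod, integral_prod]
    · unfold m d
      congr 1
      funext x
      have := integral_fintype_prod_volume_eq_pow (ι := Fin k) (W.w x)
      simpa using this
    · rw [← Measure.volume_eq_prod]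
      refine int_of_bdd (Finset.measurable_prod _ fun i _ => ?_) 1
        (fun p => Finset.prod_nonneg fun i _ => W.nonneg _ _)
        (fun p => Finset.prod_le_one (fun i _ => W.nonneg _ _) (fun i _ => W.le_one _ _))
      exact W.meas.comp (measurable_fst.prodMk ((measurable_pi_apply i).comp measurable_snd))

def ed (a b : ℕ) : Fin a ⊕ Fin b → Sym2 (Fin (a + 1) ⊕ Fin (b + 1)) :=
  Sum.elim (fun i => s(Sum.inl 0, Sum.inl i.succ)) (fun i => s(Sum.inr 0, Sum.inr i.succ))

/-- The disjoint union of the stars with `a` and with `b` leaves. -/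
def F (a b : ℕ) : SimpleGraph (Fin (a + 1) ⊕ Fin (b + 1)) :=
  SimpleGraph.fromEdgeSet (Set.range (ed a b))

theorem ed_inj (a b : ℕ) : Function.Injective (ed a b) := by
  rintro (i | i) (j | j) h <;> simp [ed, (Fin.succ_ne_zero _).symm] at h ⊢ <;> exact h

theorem t_F (W : Graphon) (a b : ℕ) : t (F a b) W = m W a * m W b := by
  classical
  unfold t
  have e : ∀ inst : Fintype (F a b).edgeSet, @SimpleGraph.edgeFinset _ (F a b) inst =
      Finset.univ.image (ed a b) := by
    intro inst
    ext e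
    rw [SimpleGraph.mem_edgeFinset]
    simp only [F, SimpleGraph.edgeSet_fromEdgeSet, Set.mem_sdiff,
      Set.mem_range, Finset.mem_image, Finset.mem_univ, true_and, Sym2.mem_diagSet]
    refine ⟨fun h => h.1, fun h => ⟨h, ?_⟩⟩
    obtain ⟨i | i, rfl⟩ := h <;> simp [ed, (Fin.succ_ne_zero _).symm]
  rw [e]
  simp_rw [Finset.prod_image (fun x _ y _ h => ed_inj a b h), Fintype.prod_sum_type]
  have h := (volume_measurePreserving_sumPiEquivProdPi
    (fun _ : Fin (a + 1) ⊕ Fin (b + 1) => I)).integral_comp'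
    (fun p : (Fin (a + 1) → I) × (Fin (b + 1) → I) =>
      (∏ i : Fin a, W.w (p.1 0) (p.1 i.succ)) * ∏ i : Fin b, W.w (p.2 0) (p.2 i.succ))
  refine Eq.trans ?_ (h.trans ?_)
  · rfl
  · rw [Measure.volume_eq_prod, integral_prod_mul
      (fun x : Fin (a + 1) → I => ∏ i : Fin a, W.w (x 0) (x i.succ))
      (fun x : Fin (b + 1) → I => ∏ i : Fin b, W.w (x 0) (x i.succ)), star, star]

theorem m_zero (W : Graphon) : m W 0 = 1 := by simp [m]

theorem m_nonneg (W : Graphon) (k : ℕ) : 0 ≤ m W k :=
  integral_nonneg fun x => pow_nonneg (d_nonneg W x) k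

theorem m_anti (W : Graphon) : Antitone (m W) := by
  intro k l h
  exact integral_mono (dk_int W l) (dk_int W k)
    fun x => pow_le_pow_of_le_one (d_nonneg W x) (d_le W x) h

theorem m_cs (W : Graphon) (k : ℕ) : m W (k + 1) ^ 2 ≤ m W k * m W (k + 2) := by
  have h : ∀ l : ℝ, 0 ≤ m W k * (l * l) + (-2 * m W (k + 1)) * l + m W (k + 2) := by
    intro l
    have e : m W k * (l * l) + (-2 * m W (k + 1)) * l + m W (k + 2) =
        ∫ x, (d W x ^ k * (l * l) + (-2 * d W x ^ (k + 1)) * l + d W x ^ (k + 2)) := by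
      rw [integral_add, integral_add, integral_mul_const, integral_mul_const, integral_const_mul]
      · rfl
      · exact (dk_int W k).mul_const _
      · exact ((dk_int W _).const_mul _).mul_const _
      · exact ((dk_int W k).mul_const _).add (((dk_int W _).const_mul _).mul_const _)
      · exact dk_int W _
    rw [e]
    refine integral_nonneg fun x => ?_
    have : d W x ^ k * (l * l) + (-2 * d W x ^ (k + 1)) * l + d W x ^ (k + 2) =
        d W x ^ k * (l - d W x) ^ 2 := by ring
    show 0 ≤ _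
    rw [this]
    exact mul_nonneg (pow_nonneg (d_nonneg W x) k) (sq_nonneg _)
  have := discrim_le_zero h
  unfold discrim at this
  nlinarith

theorem m_pos (W : Graphon) {a : ℕ} (h : m W (a + 1) ≠ 0) (k : ℕ) : 0 < m W k := by
  have h1 : 0 < m W 1 :=
    lt_of_lt_of_le (lt_of_le_of_ne (m_nonneg W _) h.symm) (m_anti W (by omega))
  have : ∀ k, 0 < m W k ∧ 0 < m W (k + 1) := by
    intro k
    induction k with
    | zero => exact ⟨by rw [m_zero]; exact one_pos, h1⟩
    | succ k ih =>
      refine ⟨ih.2, ?_⟩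
      have h2 := m_cs W k
      have h3 : 0 < m W k * m W (k + 2) := lt_of_lt_of_le (pow_pos ih.2 2) h2
      exact (mul_pos_iff_of_pos_left ih.1).mp h3
  exact (this k).1

noncomputable def X (W : Graphon) (k : ℕ) : ℝ := -Real.log (m W k)

theorem X_zero (W : Graphon) : X W 0 = 0 := by simp [X, m_zero]

theorem X_mono (W : Graphon) (h : ∀ k, 0 < m W k) : Monotone (X W) := fun _ _ hkl =>
  neg_le_neg (Real.log_le_log (h _) (m_anti W hkl))

theorem X_conc (W : Graphon) (h : ∀ k, 0 < m W k) (k : ℕ) :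
    X W (k + 2) - X W (k + 1) ≤ X W (k + 1) - X W k := by
  have := Real.log_le_log (pow_pos (h _) 2) (m_cs W k)
  rw [Real.log_pow, Real.log_mul (h _).ne' (h _).ne'] at this
  unfold X
  push_cast at this
  linarith

theorem X_anti (W : Graphon) (h : ∀ k, 0 < m W k) :
    Antitone (fun k => X W (k + 1) - X W k) := antitone_nat_of_succ_le (X_conc W h)

theorem X_slope (W : Graphon) (h : ∀ k, 0 < m W k) (a : ℕ) :
    ((a : ℝ) + 1) * (X W (a + 1) - X W a) ≤ X W (a + 1) := by
  induction a with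
  | zero => simp [X_zero]
  | succ a ih =>
    have := X_conc W h a
    have ha : (0 : ℝ) ≤ a := Nat.cast_nonneg a
    push_cast
    nlinarith

theorem ratio_eq (W : Graphon) (h : ∀ k, 0 < m W k) (a : ℕ) :
    ratio (F a (a + 2)) (F (a + 1) (a + 1)) W = 2 * X W (a + 1) / (X W a + X W (a + 2)) := by
  unfold ratio X
  rw [t_F, t_F, Real.log_mul (h _).ne' (h _).ne', Real.log_mul (h _).ne' (h _).ne',
    ← neg_add, ← neg_div_neg_eq]
  ring_nf

theorem pos_of (W : Graphon) (a : ℕ) (h : t (F a (a + 2)) W ≠ 0) : ∀ k, 0 < m W k := by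
  rw [t_F] at h
  exact m_pos W (a := a + 1) (right_ne_zero_of_mul h)

theorem bdd (a : ℕ) : BddAbove (ratios (F a (a + 2)) (F (a + 1) (a + 1))) := by
  refine ⟨2, ?_⟩
  rintro r ⟨W, h0, -, rfl⟩
  have h := pos_of W a h0
  rw [ratio_eq W h]
  have h1 : X W 0 ≤ X W a := X_mono W h (by omega)
  have h2 : X W (a + 1) ≤ X W (a + 2) := X_mono W h (by omega)
  have h3 : X W 0 ≤ X W (a + 2) := X_mono W h (by omega)
  rw [X_zero] at h1 h3
  apply div_le_of_le_mul₀ <;> linarith

/-- The constant graphon `e` with a set of measure `δ` of dominating vertices. -/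
noncomputable def ex (δ e : I) : Graphon where
  w x y := if x < δ ∨ y < δ then (1 : ℝ) else e
  meas := Measurable.ite (MeasurableSet.union
    (measurableSet_lt (f := fun p : I × I => p.1) measurable_fst measurable_const)
    (measurableSet_lt (f := fun p : I × I => p.2) measurable_snd measurable_const))
    measurable_const measurable_const
  symm x y := by simp only [or_comm]
  nonneg x y := by split_ifs; exacts [zero_le_one, e.2.1]
  le_one x y := by split_ifs; exacts [le_rfl, e.2.2]

theorem ind_int (δ : I) : Integrable (fun y : I => if y < δ then (1 : ℝ) else 0) :=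
  int_of_bdd (Measurable.ite (measurableSet_lt measurable_id measurable_const) measurable_const
    measurable_const) 1 (fun x => by split_ifs <;> norm_num) (fun x => by split_ifs <;> norm_num)

theorem ind_eq (δ : I) : ∫ y : I, (if y < δ then (1 : ℝ) else 0) = δ := by
  have := integral_indicator_one (μ := (volume : Measure I)) (s := Set.Iio δ) measurableSet_Iio
  rw [Measure.real, unitInterval.volume_Iio, ENNReal.toReal_ofReal δ.2.1] at this
  rw [← this]
  congr 1

theorem ex_ge (δ e : I) (x : I) : (e : ℝ) ≤ d (ex δ e) x := by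
  have := integral_mono (integrable_const (e : ℝ)) (w_int (ex δ e) x) (fun y => by
    show (e : ℝ) ≤ if x < δ ∨ y < δ then (1 : ℝ) else e
    split_ifs; exacts [e.2.2, le_rfl])
  simpa [d] using this

theorem ex_one (δ e : I) (x : I) (h : x < δ) : d (ex δ e) x = 1 := by
  simp [d, ex, h]

theorem ex_le (δ e : I) (x : I) (h : ¬ x < δ) : d (ex δ e) x ≤ δ + e := by
  have := integral_mono (w_int (ex δ e) x) ((ind_int δ).add (integrable_const (e : ℝ)))
    (fun y => by
      show (if x < δ ∨ y < δ then (1 : ℝ) else e) ≤ (if y < δ then (1 : ℝ) else 0) + e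
      have := e.2.1
      by_cases hy : y < δ <;> simp [h, hy, this])
  simp only [Pi.add_apply] at this
  rw [integral_add (ind_int δ) (integrable_const _), ind_eq] at this
  simpa [d] using this

theorem ex_m1 (δ e : I) (k : ℕ) : (e : ℝ) ^ k ≤ m (ex δ e) k := by
  have := integral_mono (integrable_const ((e : ℝ) ^ k)) (dk_int (ex δ e) k)
    (fun x => pow_le_pow_left₀ e.2.1 (ex_ge δ e x) k)
  simpa [m] using this

theorem ex_m2 (δ e : I) (k : ℕ) : (δ : ℝ) ≤ m (ex δ e) k := by
  have := integral_mono (ind_int δ) (dk_int (ex δ e) k) (fun x => by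
    show (if x < δ then (1 : ℝ) else 0) ≤ d (ex δ e) x ^ k
    split_ifs with h
    · rw [ex_one δ e x h, one_pow]
    · exact pow_nonneg (d_nonneg _ _) k)
  rwa [ind_eq] at this

theorem ex_m3 (δ e : I) (k : ℕ) : m (ex δ e) k ≤ δ + ((δ : ℝ) + e) ^ k := by
  have := integral_mono (dk_int (ex δ e) k)
    ((ind_int δ).add (integrable_const (((δ : ℝ) + e) ^ k))) (fun x => by
    show d (ex δ e) x ^ k ≤ (if x < δ then (1 : ℝ) else 0) + ((δ : ℝ) + e) ^ k
    split_ifs with h
    · rw [ex_one δ e x h, one_pow]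
      have := pow_nonneg (add_nonneg δ.2.1 e.2.1) k
      linarith
    · rw [zero_add]
      exact pow_le_pow_left₀ (d_nonneg _ _) (ex_le δ e x h) k)
  simp only [Pi.add_apply] at this
  rw [integral_add (ind_int δ) (integrable_const _), ind_eq] at this
  simpa [m] using this

theorem lower (a : ℕ) (η : ℝ) (hη : 0 < η) : ∃ r ∈ ratios (F a (a + 2)) (F (a + 1) (a + 1)),
    2 * ((a : ℝ) + 1) / (2 * a + 1) - η ≤ r := by
  obtain ⟨C, hC⟩ : ∃ C, C = Real.log (1 + 2 ^ (a + 1)) := ⟨_, rfl⟩
  have hC0 : 0 ≤ C := by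
    rw [hC]
    apply Real.log_nonneg
    have : (0 : ℝ) < 2 ^ (a + 1) := by positivity
    linarith
  obtain ⟨L, hL⟩ : ∃ L, L = 2 * C / η + C + 1 := ⟨_, rfl⟩
  have hq : 0 ≤ 2 * C / η := by positivity
  have hL0 : 0 < L := by linarith
  have ha : (0 : ℝ) ≤ a := Nat.cast_nonneg a
  have he0 : 0 < Real.exp (-L) := Real.exp_pos _
  have he1 : Real.exp (-L) ≤ 1 := Real.exp_le_one_iff.mpr (by linarith)
  let e : I := ⟨Real.exp (-L), he0.le, he1⟩
  let δ : I := ⟨Real.exp (-L) ^ (a + 1), by positivity, pow_le_one₀ he0.le he1⟩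
  have h : ∀ k, 0 < m (ex δ e) k := fun k => lt_of_lt_of_le (pow_pos he0 k) (ex_m1 δ e k)
  have x1 : X (ex δ e) a ≤ a * L := by
    have := Real.log_le_log (pow_pos he0 a) (ex_m1 δ e a)
    rw [Real.log_pow, Real.log_exp] at this
    unfold X
    linarith
  have x2 : X (ex δ e) (a + 2) ≤ (a + 1) * L := by
    have := Real.log_le_log (pow_pos he0 (a + 1)) (ex_m2 δ e (a + 2))
    rw [Real.log_pow, Real.log_exp] at this
    unfold X
    push_cast at this
    linarith
  have x3 : (a + 1) * L - C ≤ X (ex δ e) (a + 1) := by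
    have h1 : m (ex δ e) (a + 1) ≤ (1 + 2 ^ (a + 1)) * Real.exp (-L) ^ (a + 1) := by
      refine (ex_m3 δ e (a + 1)).trans ?_
      have h2 : (δ : ℝ) + e ≤ 2 * Real.exp (-L) := by
        have : Real.exp (-L) ^ (a + 1) ≤ Real.exp (-L) :=
          pow_le_of_le_one he0.le he1 (by omega)
        show Real.exp (-L) ^ (a + 1) + Real.exp (-L) ≤ _
        linarith
      have h3 := pow_le_pow_left₀ (add_nonneg δ.2.1 e.2.1) h2 (a + 1)
      rw [mul_pow] at h3
      show Real.exp (-L) ^ (a + 1) + _ ≤ _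
      linarith
    have := Real.log_le_log (h _) h1
    rw [Real.log_mul (by positivity) (by positivity), Real.log_pow, Real.log_exp, ← hC] at this
    unfold X
    push_cast at this
    linarith
  have y1 : X (ex δ e) 0 ≤ X (ex δ e) a := X_mono _ h (by omega)
  have y2 : X (ex δ e) (a + 1) ≤ X (ex δ e) (a + 2) := X_mono _ h (by omega)
  rw [X_zero] at y1
  have y3 : 0 < (a + 1) * L - C := by nlinarith
  have hD : 0 < X (ex δ e) a + X (ex δ e) (a + 2) := by linarith
  refine ⟨_, ⟨ex δ e, ?_, ?_, rfl⟩, ?_⟩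
  · rw [t_F]; exact (mul_pos (h _) (h _)).ne'
  · rw [t_F]
    intro h1
    have := congrArg Real.log h1
    rw [Real.log_mul (h _).ne' (h _).ne', Real.log_one] at this
    unfold X at hD
    linarith
  · rw [ratio_eq _ h]
    have z1 : 2 * (((a : ℝ) + 1) * L - C) / ((2 * a + 1) * L) ≤
        2 * X (ex δ e) (a + 1) / (X (ex δ e) a + X (ex δ e) (a + 2)) :=
      div_le_div₀ (by linarith) (by linarith) hD (by linarith)
    refine le_trans ?_ z1
    have z2 : 2 * (((a : ℝ) + 1) * L - C) / ((2 * a + 1) * L) =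
        2 * ((a : ℝ) + 1) / (2 * a + 1) - 2 * C / ((2 * a + 1) * L) := by
      field_simp
    have z3 : 2 * C / ((2 * a + 1) * L) ≤ η := by
      rw [div_le_iff₀ (by positivity)]
      have : 2 * C = 2 * C / η * η := by field_simp
      have z4 : 2 * C / η ≤ (2 * a + 1) * L := by nlinarith
      nlinarith
    linarith

theorem rho_ge (a : ℕ) : 2 * ((a : ℝ) + 1) / (2 * a + 1) ≤ rho (F a (a + 2)) (F (a + 1) (a + 1)) := by
  apply le_of_forall_pos_le_add
  intro η hη
  obtain ⟨r, hr, h⟩ := lower a η hη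
  have := le_csSup (bdd a) hr
  unfold rho
  linarith

theorem incompat (W : Graphon) {a b : ℕ} (hab : a < b)
    (hb : 4 * ((b : ℝ) + 1) / (4 * b + 3) < ratio (F b (b + 2)) (F (b + 1) (b + 1)) W) :
    ratio (F a (a + 2)) (F (a + 1) (a + 1)) W ≤ 2 / (2 - 1 / ((a : ℝ) + 1) + 1 / (2 * (b + 1))) := by
  have ha0 : (0 : ℝ) ≤ a := Nat.cast_nonneg a
  have hb0 : (0 : ℝ) ≤ b := Nat.cast_nonneg b
  have h : ∀ k, 0 < m W k := by
    apply pos_of W b
    intro h0
    unfold ratio at hb
    rw [h0, Real.log_zero, div_zero] at hb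
    have : 0 < 4 * ((b : ℝ) + 1) / (4 * b + 3) := by positivity
    linarith
  rw [ratio_eq W h] at hb ⊢
  have nn : ∀ k, 0 ≤ X W k := fun k => by
    have := X_mono W h (Nat.zero_le k)
    rwa [X_zero] at this
  have hD : 0 < X W b + X W (b + 2) := by
    rcases (add_nonneg (nn b) (nn (b + 2))).eq_or_lt with h0 | h0
    · rw [← h0, div_zero] at hb
      have : 0 < 4 * ((b : ℝ) + 1) / (4 * b + 3) := by positivity
      linarith
    · exact h0
  rw [div_lt_div_iff₀ (by positivity) hD] at hb
  have s1 : X W (b + 1) ≤ X W (b + 2) := X_mono W h (by omega)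
  have s2 : X W (a + 1) ≤ X W (b + 1) := X_mono W h (by omega)
  have s3 : X W (b + 1) - X W b ≤ X W (a + 1 + 1) - X W (a + 1) := X_anti W h (by omega : a + 1 ≤ b)
  have s4 := X_slope W h a
  have s5 : X W (b + 1) ≤ 2 * (b + 1) * (X W (b + 1) - X W b) := by nlinarith
  have s6 : X W (a + 1) * (1 / (2 * ((b : ℝ) + 1))) ≤ X W (a + 2) - X W (a + 1) := by
    rw [mul_one_div, div_le_iff₀ (by positivity)]
    nlinarith
  have s7 : X W (a + 1) - X W a ≤ X W (a + 1) * (1 / ((a : ℝ) + 1)) := by
    rw [mul_one_div, le_div_iff₀ (by positivity)]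
    linarith
  have s8 : 1 / ((a : ℝ) + 1) ≤ 1 := by
    rw [div_le_one (by positivity)]
    linarith
  have s9 : 0 < 1 / (2 * ((b : ℝ) + 1)) := by positivity
  have hκ : 0 < 2 - 1 / ((a : ℝ) + 1) + 1 / (2 * (b + 1)) := by linarith
  apply div_le_of_le_mul₀ (add_nonneg (nn _) (nn _)) (by positivity)
  rw [div_mul_eq_mul_div, le_div_iff₀ hκ]
  nlinarith

theorem result (ι : Type) [Finite ι] (𝓕 : ι → ℕ → Graphon) :
    ∃ (V U : Type) (_ : Fintype V) (_ : Fintype U) (G : SimpleGraph V) (H : SimpleGraph U),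
      RhoFinite G H ∧ ∀ i, ¬ Tendsto (fun n => ratio G H (𝓕 i n)) atTop (nhds (rho G H)) := by
  by_contra hcon
  have key : ∀ a : ℕ, ∃ i, Tendsto (fun n => ratio (F a (a + 2)) (F (a + 1) (a + 1)) (𝓕 i n))
      atTop (nhds (rho (F a (a + 2)) (F (a + 1) (a + 1)))) := by
    intro a
    by_contra h
    push Not at h
    refine hcon ⟨_, _, _, _, F a (a + 2), F (a + 1) (a + 1), ⟨fun W hW => ?_, ?_, bdd a⟩, h⟩
    · rw [t_F]
      exact (mul_pos (pos_of W a hW _) (pos_of W a hW _)).ne'
    · obtain ⟨r, hr, -⟩ := lower a 1 one_pos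
      exact ⟨r, hr⟩
  choose f hf using key
  have main : ∀ a b : ℕ, a < b → f a ≠ f b := by
    intro a b hab e
    have ha0 : (0 : ℝ) ≤ a := Nat.cast_nonneg a
    have hb0 : (0 : ℝ) ≤ b := Nat.cast_nonneg b
    have h1 : 4 * ((b : ℝ) + 1) / (4 * b + 3) < rho (F b (b + 2)) (F (b + 1) (b + 1)) := by
      refine lt_of_lt_of_le ?_ (rho_ge b)
      rw [div_lt_div_iff₀ (by positivity) (by positivity)]
      nlinarith
    have h2 : 2 / (2 - 1 / ((a : ℝ) + 1) + 1 / (2 * (b + 1))) <
        rho (F a (a + 2)) (F (a + 1) (a + 1)) := by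
      refine lt_of_lt_of_le ?_ (rho_ge a)
      have e1 : 2 * ((a : ℝ) + 1) / (2 * a + 1) = 2 / (2 - 1 / ((a : ℝ) + 1)) := by
        have : 2 - 1 / ((a : ℝ) + 1) = (2 * a + 1) / (a + 1) := by
          field_simp
          ring
        rw [this]
        field_simp
      have s8 : 1 / ((a : ℝ) + 1) ≤ 1 := by
        rw [div_le_one (by positivity)]
        linarith
      have s9 : 0 < 1 / (2 * ((b : ℝ) + 1)) := by positivity
      rw [e1]
      exact div_lt_div_of_pos_left two_pos (by linarith) (by linarith)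
    have e1 := (hf b).eventually (lt_mem_nhds h1)
    have e2 := (hf a).eventually (lt_mem_nhds h2)
    rw [e] at e2
    obtain ⟨n, hn1, hn2⟩ := (e1.and e2).exists
    exact absurd (incompat _ hab hn1) (not_le.mpr hn2)
  obtain ⟨a, b, hne, e⟩ := Finite.exists_ne_map_eq_of_infinite f
  rcases lt_or_gt_of_ne hne with h | h
  · exact main a b h e
  · exact main b a h e.symm

end Pool.Agent.Results.MP_828339_co.Yes
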